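import Pool.Agent.Helper10.GO.GoalsT
import Pool.Agent.Helper42.AD.LOCF

/-!
# Project GO (MP_6af536_nt), packet TRANS: from a section to the local inequality along the orbit
-/

set_option autoImplicit false

open MvPolynomial Filter Topology

noncomputable section

namespace Pool.Agent.Helper35.GO

open Pool.Agent.Helper80.HD Pool.Agent.Helper80.AD Pool.Agent.Helper10.GO Pool.Agent.Helper42.AD

section forms

variable {K L : Type} [Field K] [Field L] [Algebra K L] {N : ℕ}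

theorem mem_sp (x : Fin (N + 1) → L) (A : ℕ) {z : L} (h : z ∈ sp K x ^ A) :
    ∃ P : MvPolynomial (Fin (N + 1)) K, P.IsHomogeneous A ∧ aeval x P = z := by
  have h1 : sp K x = (homogeneousSubmodule (Fin (N + 1)) K 1).map (aeval x).toLinearMap := by
    rw [homogeneousSubmodule_one_eq_span_X, Submodule.map_span]
    unfold sp
    congr 1
    ext w
    constructor
    · rintro ⟨i, rfl⟩
      exact ⟨X i, ⟨i, rfl⟩, by simp⟩
    · rintro ⟨_, ⟨i, rfl⟩, rfl⟩
      exact ⟨i, by simp⟩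
  rw [h1, ← Submodule.map_pow, homogeneousSubmodule_one_pow] at h
  obtain ⟨P, hP, hz⟩ := h
  exact ⟨P, hP, hz⟩

/-- products of forms in the three blocks -/
def gens (K : Type) [Field K] (N A B E : ℕ) : Set (MvPolynomial (Fin 3 × Fin (N + 1)) K) :=
  {T | ∃ P Q R : MvPolynomial (Fin (N + 1)) K, P.IsHomogeneous A ∧ Q.IsHomogeneous B ∧
    R.IsHomogeneous E ∧ T = rename (fun i => ((0 : Fin 3), i)) P *
      rename (fun i => ((1 : Fin 3), i)) Q * rename (fun i => ((2 : Fin 3), i)) R}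

theorem mem_tri (Y : Fin 3 → Fin (N + 1) → L) (A B E : ℕ) {t : L}
    (h : t ∈ (sp K (Y 0) ^ A * sp K (Y 1) ^ B * sp K (Y 2) ^ E : Submodule K L)) :
    ∃ T ∈ Submodule.span K (gens K N A B E), aeval (fun p : Fin 3 × Fin (N + 1) => Y p.1 p.2) T = t := by
  refine Submodule.mul_induction_on h ?_ ?_
  · intro m hm w hw
    obtain ⟨R, hR, rfl⟩ := mem_sp (Y 2) E hw
    refine Submodule.mul_induction_on hm ?_ ?_
    · intro a ha c hc
      obtain ⟨P, hP, rfl⟩ := mem_sp (Y 0) A ha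
      obtain ⟨Q, hQ, rfl⟩ := mem_sp (Y 1) B hc
      refine ⟨_, Submodule.subset_span ⟨P, Q, R, hP, hQ, hR, rfl⟩, ?_⟩
      rw [map_mul, map_mul, aeval_rename, aeval_rename, aeval_rename]
      rfl
    · rintro a c ⟨T, hT, e1⟩ ⟨T', hT', e2⟩
      exact ⟨T + T', Submodule.add_mem _ hT hT', by rw [map_add, e1, e2, add_mul]⟩
  · rintro a c ⟨T, hT, e1⟩ ⟨T', hT', e2⟩
    exact ⟨T + T', Submodule.add_mem _ hT hT', by rw [map_add, e1, e2]⟩

theorem tri_smul {Ω : Type} [CommRing Ω] (ι : K →+* Ω) (y : Fin 3 × Fin (N + 1) → Ω)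
    (l : Fin 3 → Ω) {A B E : ℕ} {T : MvPolynomial (Fin 3 × Fin (N + 1)) K}
    (hT : T ∈ Submodule.span K (gens K N A B E)) :
    eval₂ ι (fun p => l p.1 * y p) T = l 0 ^ A * l 1 ^ B * l 2 ^ E * eval₂ ι y T := by
  induction hT using Submodule.span_induction with
  | mem T hT =>
    obtain ⟨P, Q, R, hP, hQ, hR, rfl⟩ := hT
    simp only [eval₂_mul, eval₂_rename]
    have e0 : eval₂ ι ((fun p : Fin 3 × Fin (N + 1) => l p.1 * y p) ∘
        fun i => ((0 : Fin 3), i)) P = l 0 ^ A * eval₂ ι (y ∘ fun i => ((0 : Fin 3), i)) P :=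
      eval_smul hP ι (l 0) (y ∘ fun i => ((0 : Fin 3), i))
    have e1 : eval₂ ι ((fun p : Fin 3 × Fin (N + 1) => l p.1 * y p) ∘
        fun i => ((1 : Fin 3), i)) Q = l 1 ^ B * eval₂ ι (y ∘ fun i => ((1 : Fin 3), i)) Q :=
      eval_smul hQ ι (l 1) (y ∘ fun i => ((1 : Fin 3), i))
    have e2 : eval₂ ι ((fun p : Fin 3 × Fin (N + 1) => l p.1 * y p) ∘
        fun i => ((2 : Fin 3), i)) R = l 2 ^ E * eval₂ ι (y ∘ fun i => ((2 : Fin 3), i)) R :=
      eval_smul hR ι (l 2) (y ∘ fun i => ((2 : Fin 3), i))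
    rw [e0, e1, e2]
    ring
  | zero => rw [eval₂_zero, eval₂_zero, mul_zero]
  | add T T' _ _ h1 h2 => rw [eval₂_add, eval₂_add, h1, h2, mul_add]
  | smul a T _ h1 =>
    rw [smul_eq_C_mul, eval₂_mul, eval₂_mul, eval₂_C, eval₂_C, h1]
    ring

theorem tri_hom {A B E : ℕ} {T : MvPolynomial (Fin 3 × Fin (N + 1)) K}
    (hT : T ∈ Submodule.span K (gens K N A B E)) (H : Fin 3 → Fin (N + 1) → MvPolynomial (Fin (N + 1)) K)
    (d : Fin 3 → ℕ) (hH : ∀ i j, (H i j).IsHomogeneous (d i)) :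
    (aeval (fun p : Fin 3 × Fin (N + 1) => H p.1 p.2) T).IsHomogeneous
      (d 0 * A + d 1 * B + d 2 * E) := by
  induction hT using Submodule.span_induction with
  | mem T hT =>
    obtain ⟨P, Q, R, hP, hQ, hR, rfl⟩ := hT
    rw [map_mul, map_mul, aeval_rename, aeval_rename, aeval_rename]
    exact ((hP.aeval _ (hH 0)).mul (hQ.aeval _ (hH 1))).mul (hR.aeval _ (hH 2))
  | zero => rw [map_zero]; exact isHomogeneous_zero _ _ _
  | add T T' _ _ h1 h2 => rw [map_add]; exact h1.add h2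
  | smul a T _ h1 =>
    rw [map_smul]
    exact (homogeneousSubmodule (Fin (N + 1)) K _).smul_mem a h1

theorem aeval_hsmul {d : ℕ} {P : MvPolynomial (Fin (N + 1)) K} (hP : P.IsHomogeneous d) (l : L)
    (z : Fin (N + 1) → L) : aeval (fun i => l * z i) P = l ^ d * aeval z P := by
  have h := tri_smul (N := N) (K := K) (A := d) (B := 0) (E := 0) (algebraMap K L)
    (fun p => z p.2) (fun _ => l) (Submodule.subset_span ⟨P, 1, 1, hP, isHomogeneous_one _ _,
      isHomogeneous_one _ _, rfl⟩)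
  simp only [map_one, mul_one, eval₂_rename, pow_zero] at h
  rw [aeval_def, aeval_def]
  exact h

end forms

section its

variable {K : Type} [Field K] {N δ : ℕ} {Γ : Fin (N + 1) → MvPolynomial (Fin (N + 1)) K}

theorem it_hom (h : ∀ j, (Γ j).IsHomogeneous δ) (m : ℕ) :
    ∀ j, (it Γ m j).IsHomogeneous (δ ^ m) := by
  induction m with
  | zero =>
    intro j
    exact isHomogeneous_X _ _
  | succ m ih =>
    intro j
    rw [pow_succ]
    exact (h j).aeval (it Γ m) ih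

theorem it_xi [Algebra K ℂ] {ξ : ℕ → Fin (N + 1) → ℂ} (hG : GenData K N δ Γ ξ) (n m : ℕ) :
    ∀ j, aeval (ξ n) (it Γ m j) = ξ (n + m) j := by
  induction m with
  | zero =>
    intro j
    exact aeval_X _ _
  | succ m ih =>
    intro j
    show aeval (ξ n) (aeval (it Γ m) (Γ j)) = ξ (n + m + 1) j
    rw [comp_aeval_apply, hG.step]
    congr 2
    funext i
    exact ih i

theorem it_y [Algebra K ℂ] {F : IntermediateField K ℂ} {ξ : ℕ → Fin (N + 1) → ℂ}
    {y : ℕ → BV F N} (h : GenOrb K F N δ Γ ξ y) (m : ℕ) : ∀ᶠ n in atTop, ∃ c : ℂ, c ≠ 0 ∧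
      ∀ j, aeval (cv (y n).1) (it Γ m j) = c * cv (y (n + m)).1 j := by
  induction m with
  | zero =>
    refine Eventually.of_forall fun n => ⟨1, one_ne_zero, fun j => ?_⟩
    rw [one_mul]
    exact aeval_X _ _
  | succ m ih =>
    have h2 := (tendsto_add_atTop_nat m).eventually h.step
    filter_upwards [ih, h2] with n hn1 hn2
    obtain ⟨c, hc, e1⟩ := hn1
    obtain ⟨c', hc', e2⟩ := hn2
    refine ⟨c ^ δ * c', mul_ne_zero (pow_ne_zero _ hc) hc', fun j => ?_⟩
    show aeval (cv (y n).1) (aeval (it Γ m) (Γ j)) = _ * cv (y (n + m + 1)).1 j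
    rw [comp_aeval_apply]
    have e3 : (fun i => aeval (cv (y n).1) (it Γ m i)) = fun i => c * cv (y (n + m)).1 i :=
      funext e1
    rw [e3, aeval_hsmul (h.gen.hom j), e2, mul_assoc]

end its

/-- the inequality at one place -/
theorem loc {K F : Type} [Field K] [Field F] [Algebra K F] {N A B E b : ℕ}
    {T : Fin (N + 1) → MvPolynomial (Fin 3 × Fin (N + 1)) K} (v : AbsoluteValue F ℝ) {G : ℝ}
    (hT : ∀ i, T i ∈ Submodule.span K (gens K N A B E))
    (hG : ∀ i (W : Fin 3 × Fin (N + 1) → F), (∀ p, v (W p) ≤ 1) →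
      v (eval₂ (algebraMap K F) W (T i)) ≤ G) (hG1 : 1 ≤ G)
    (Y : Fin 3 → Fin (N + 1) → F) (h1 : ∀ i, ∃ j, Y i j = 1) (g : F) (hg : g ≠ 0)
    (he : ∀ i, eval₂ (algebraMap K F) (fun p => Y p.1 p.2) (T i) = g * Y 1 i ^ b) :
    Real.log (v g) ≤ A * Real.log (vn v (Y 0)) + B * Real.log (vn v (Y 1)) +
      E * Real.log (vn v (Y 2)) - b * Real.log (vn v (Y 1)) + Real.log G := by
  have hR : ∀ i, 1 ≤ vn v (Y i) := by
    intro i
    obtain ⟨j, hj⟩ := h1 i
    have := le_vn v (Y i) j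
    rwa [hj, map_one] at this
  have hR0 : ∀ i, 0 < vn v (Y i) := fun i => by linarith [hR i]
  choose j hj using fun i => exists_vn v (Y i)
  have hne : ∀ i, Y i (j i) ≠ 0 := by
    intro i h0
    have := hj i
    rw [h0, map_zero] at this
    linarith [hR i]
  set W : Fin 3 × Fin (N + 1) → F := fun p => Y p.1 p.2 / Y p.1 (j p.1) with hW
  have hW1 : ∀ p, v (W p) ≤ 1 := by
    intro p
    rw [hW]
    simp only
    rw [map_div₀, hj, div_le_one (hR0 _)]
    exact le_vn v (Y p.1) p.2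
  have hYW : (fun p : Fin 3 × Fin (N + 1) => Y p.1 p.2) = fun p => Y p.1 (j p.1) * W p := by
    funext p
    rw [hW]
    simp only
    rw [mul_div_cancel₀ _ (hne p.1)]
  have h2 := he (j 1)
  rw [hYW, tri_smul (algebraMap K F) W (fun i => Y i (j i)) (hT (j 1))] at h2
  have h3 := congrArg v h2
  simp only [map_mul, map_pow, hj] at h3
  have h4 := hG (j 1) W hW1
  have h5 : v g * vn v (Y 1) ^ b ≤ vn v (Y 0) ^ A * vn v (Y 1) ^ B * vn v (Y 2) ^ E * G := by
    rw [← h3]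
    have h6 : 0 ≤ vn v (Y 0) ^ A * vn v (Y 1) ^ B * vn v (Y 2) ^ E := by
      have := hR0 0
      have := hR0 1
      have := hR0 2
      positivity
    exact mul_le_mul_of_nonneg_left h4 h6
  have hg0 : 0 < v g := v.pos hg
  have h0 := hR0 0
  have h1' := hR0 1
  have h2' := hR0 2
  have h7 := Real.log_le_log (by positivity) h5
  rw [Real.log_mul (by positivity) (by positivity), Real.log_mul (by positivity) (by positivity),
    Real.log_mul (by positivity) (by positivity), Real.log_mul (by positivity) (by positivity),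
    Real.log_pow, Real.log_pow, Real.log_pow, Real.log_pow] at h7
  linarith

theorem trans (hGAM : S_GAM) : S_TRANS := by
  classical
  intro K _ _ _ F N δ Γ ξ y h p q r A b B E hsec
  obtain ⟨s, hs, hmem⟩ := hsec
  set ix : Fin 3 → ℕ := ![p, q, r] with hix
  set Yξ : Fin 3 → Fin (N + 1) → ℂ := fun i => ξ (ix i) with hYξ
  have hT : ∀ i, ∃ T ∈ Submodule.span K (gens K N A B E),
      aeval (fun t : Fin 3 × Fin (N + 1) => Yξ t.1 t.2) T = s * ξ q i ^ b :=
    fun i => mem_tri Yξ A B E (hmem i)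
  choose T hT1 hT2 using hT
  obtain ⟨Γc, G', hΓ, hG', hb⟩ := hGAM K (Fin 3 × Fin (N + 1)) (Set.range T) (Set.finite_range _)
  refine ⟨Γc, 1 + Real.log G', hΓ, by linarith [Real.log_nonneg hG'], ?_⟩
  -- the composed forms
  set H : Fin 3 → Fin (N + 1) → MvPolynomial (Fin (N + 1)) K := fun i => it Γ (ix i) with hH
  have hHh : ∀ i j, (H i j).IsHomogeneous (δ ^ ix i) := fun i j => it_hom h.gen.hom (ix i) j
  set Q : Fin (N + 1) → MvPolynomial (Fin (N + 1)) K := fun i =>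
    aeval (fun t : Fin 3 × Fin (N + 1) => H t.1 t.2) (T i) with hQ
  have hQh := fun i => tri_hom (hT1 i) H (fun i => δ ^ ix i) hHh
  have hQξ : ∀ i, aeval (ξ 0) (Q i) = s * ξ q i ^ b := by
    intro i
    rw [hQ]
    simp only
    rw [comp_aeval_apply, ← hT2 i]
    congr 2
    funext t
    rw [hH, hYξ]
    simp only
    rw [it_xi h.gen, zero_add]
  have hHq : ∀ i, aeval (ξ 0) (it Γ q i) = ξ q i := by
    intro i
    rw [it_xi h.gen, zero_add]
  have hev1 : ∀ i j, ∀ᶠ n in atTop, aeval (cv (y n).1) (Q i * it Γ q j ^ b - Q j * it Γ q i ^ b) = 0 := by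
    intro i j
    refine h.zero _ _ (IsHomogeneous.sub ((hQh i).mul ((it_hom h.gen.hom q j).pow b))
      ((hQh j).mul ((it_hom h.gen.hom q i).pow b))) ?_
    rw [map_sub, map_mul, map_mul, map_pow, map_pow, hQξ, hQξ, hHq, hHq]
    ring
  obtain ⟨i₀, hi₀⟩ : ∃ i, ξ q i ≠ 0 := by
    obtain ⟨i, hi⟩ := Function.ne_iff.1 h.gen.ne
    refine ⟨i, fun h0 => hi ?_⟩
    have h1 := (h.gen.same q 1 (X i) (isHomogeneous_X _ _)).1
    rw [aeval_X, aeval_X] at h1
    exact h1 h0
  have hev2 : ∀ᶠ n in atTop, aeval (cv (y n).1) (Q i₀) ≠ 0 := by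
    refine h.nonzero _ _ (hQh i₀) ?_
    rw [hQξ]
    exact mul_ne_zero hs (pow_ne_zero _ hi₀)
  have hev1' : ∀ᶠ n in atTop, ∀ i j,
      aeval (cv (y n).1) (Q i * it Γ q j ^ b - Q j * it Γ q i ^ b) = 0 := by
    rw [eventually_all]
    intro i
    rw [eventually_all]
    exact hev1 i
  have hev3 : ∀ᶠ n in atTop, ∀ i : Fin 3, ∃ c : ℂ, c ≠ 0 ∧
      ∀ j, aeval (cv (y n).1) (it Γ (ix i) j) = c * cv (y (n + ix i)).1 j := by
    rw [eventually_all]
    exact fun i => it_y h (ix i)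
  filter_upwards [hev1', hev2, hev3] with n hn1 hn2 hn3
  choose c hc hcj using hn3
  -- the vectors over `F`
  set Y : Fin 3 → Fin (N + 1) → F := fun i => (y (n + ix i)).1 with hY
  set t : Fin (N + 1) → F := fun i => eval₂ (algebraMap K F) (fun p => Y p.1 p.2) (T i) with ht
  set μ : ℂ := c 0 ^ A * c 1 ^ B * c 2 ^ E with hμ
  have hμ0 : μ ≠ 0 := mul_ne_zero (mul_ne_zero (pow_ne_zero _ (hc 0)) (pow_ne_zero _ (hc 1)))
    (pow_ne_zero _ (hc 2))
  have hcoe : ∀ i, ((t i : F) : ℂ) =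
      eval₂ (algebraMap K ℂ) (fun p : Fin 3 × Fin (N + 1) => cv (Y p.1) p.2) (T i) := by
    intro i
    rw [ht]
    simp only
    exact eval₂_comp_left (algebraMap F ℂ) (algebraMap K F) _ (T i)
  have hQt : ∀ i, aeval (cv (y n).1) (Q i) = μ * (t i : ℂ) := by
    intro i
    rw [hcoe, hμ, ← tri_smul (algebraMap K ℂ) _ c (hT1 i), hQ]
    simp only
    rw [comp_aeval_apply, aeval_def]
    congr 1
    funext p
    exact hcj p.1 p.2
  have hHt : ∀ i, aeval (cv (y n).1) (it Γ q i) = c 1 * (Y 1 i : ℂ) := fun i => hcj 1 i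
  obtain ⟨j, hj⟩ : ∃ j, Y 1 j = 1 := (y (n + ix 1)).2.2
  have hkey : ∀ i, t i = t j * Y 1 i ^ b := by
    intro i
    have h1 := hn1 i j
    rw [map_sub, map_mul, map_mul, map_pow, map_pow, hQt, hQt, hHt, hHt, hj] at h1
    have h2 : μ * c 1 ^ b * ((t i : ℂ) - t j * (Y 1 i : ℂ) ^ b) = 0 := by
      rw [← h1]
      push_cast
      ring
    have h3 := (mul_eq_zero.1 h2).resolve_left (mul_ne_zero hμ0 (pow_ne_zero _ (hc 1)))
    apply Subtype.ext
    push_cast
    exact sub_eq_zero.1 h3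
  have htj : t j ≠ 0 := by
    intro h0
    apply hn2
    rw [hQt, hkey, h0, zero_mul]
    simp
  refine ⟨t j, htj, fun v => ?_⟩
  have hone : ∀ i, ∃ l, Y i l = 1 := fun i => (y (n + ix i)).2.2
  have hmain : ∀ {G : ℝ}, 1 ≤ G → (∀ i (W : Fin 3 × Fin (N + 1) → F), (∀ p, v.1 (W p) ≤ 1) →
      v.1 (eval₂ (algebraMap K F) W (T i)) ≤ G) →
      Real.log (v.1 (t j)) ≤ A * hV F (y (n + p)) v + B * hV F (y (n + q)) v +
        E * hV F (y (n + r)) v - b * hV F (y (n + q)) v + Real.log G := by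
    intro G hG1 hG
    exact loc v.1 hT1 hG hG1 Y hone (t j) htj hkey
  by_cases hv : IsNonarchimedean v.1
  · have e1 : cst F Γc (1 + Real.log G') v =
        Real.log (Γc (v.1.comp (algebraMap K F).injective)) := by
      rw [cst, if_pos hv]
    rw [e1]
    exact hmain (hΓ.1 _) fun i W hW => (hb _ ⟨i, rfl⟩).1 F v.1 (algebraMap K F) W hv hW
  · obtain ⟨ι, hι⟩ : ∃ ι : F →+* ℂ, ∀ c, v.1 c = ‖ι c‖ := v.2.resolve_left hv
    have e1 : cst F Γc (1 + Real.log G') v = 1 + Real.log G' := by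
      rw [cst, if_neg hv]
    rw [e1]
    have h1 := hmain hG' fun i W hW => by
      rw [hι]
      have h2 : ι (eval₂ (algebraMap K F) W (T i)) =
          eval₂ (ι.comp (algebraMap K F)) (fun l => ι (W l)) (T i) :=
        eval₂_comp_left ι (algebraMap K F) W (T i)
      rw [h2]
      exact (hb _ ⟨i, rfl⟩).2 _ _ fun l => by rw [← hι]; exact hW l
    linarith

end Pool.Agent.Helper35.GO
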