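import Pool.Agent.Helper10.GO.GoalsP

/-!
# Project GO (MP_6af536_nt), packet TAY: Taylor expansion to the first order
-/

set_option autoImplicit false

open MvPolynomial

noncomputable section

namespace Pool.Agent.Helper35.GO

open Pool.Agent.Helper10.GO

theorem tay : S_TAY := by
  classical
  intro R _ N g ϖ b
  induction g using MvPolynomial.induction_on with
  | C a => exact ⟨0, by simp⟩
  | add p q hp hq =>
    obtain ⟨P, hP⟩ := hp
    obtain ⟨Q, hQ⟩ := hq
    refine ⟨P + Q, ?_⟩
    rw [map_add, hP, hQ]
    simp only [map_add, add_mul, Finset.sum_add_distrib]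
    ring
  | mul_X p i hp =>
    obtain ⟨P, hP⟩ := hp
    refine ⟨(∑ j, C (eval b (pderiv j p)) * X j) * X i + P * (C (b i) + C ϖ * X i), ?_⟩
    have h1 : ∀ j, C (eval b (pderiv j (p * X i))) * (X j : MvPolynomial (Fin N) R) =
        C (b i) * (C (eval b (pderiv j p)) * X j) + (if j = i then C (eval b p) * X j else 0) := by
      intro j
      rw [Derivation.leibniz, pderiv_X]
      by_cases h : j = i
      · subst h
        simp
        ring
      · have h' : (Pi.single j 1 : Fin N → MvPolynomial (Fin N) R) i = 0 := by
          rw [Pi.single_apply, if_neg (fun h2 => h h2.symm)]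
        rw [h', if_neg h]
        simp
        ring
    rw [map_mul, hP, aeval_X, map_mul, eval_X, Finset.sum_congr rfl (fun j _ => h1 j),
      Finset.sum_add_distrib, ← Finset.mul_sum, Finset.sum_ite_eq' Finset.univ i]
    simp only [Finset.mem_univ, if_true, map_mul, map_pow]
    ring

end Pool.Agent.Helper35.GO
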